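import Pool.Agent.J4H73.YJ.Pr

set_option autoImplicit false

/-! # The Boolean algebra of the cylinders, and the additivity of the volume -/

namespace Pool.Agent.J4H73.YJ

open MvPolynomial
open Pool.Agent.W428.MOT
open Pool.Agent.TH192.MT (ar coeff_ar chi_univ)
open Pool.Agent.J4H50.YJ

section

variable {K : Type} [Field K]

theorem cyl_compl {σ : Type} {A : Set (Ac K σ)} {N : ℕ} (hA : Cyl A N) : Cyl Aᶜ N :=
  ⟨fun x y hxy hx hy => hx (hA.1 y x (fun i j hj => (hxy i j hj).symm) hy), hA.2.compl⟩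

theorem cyl_inter {σ : Type} {A B : Set (Ac K σ)} {N : ℕ} (hA : Cyl A N) (hB : Cyl B N) :
    Cyl (A ∩ B) N :=
  ⟨fun x y hxy hx => ⟨hA.1 x y hxy hx.1, hB.1 x y hxy hx.2⟩, hA.2.inter hB.2⟩

theorem cyl_union {σ : Type} {A B : Set (Ac K σ)} {N : ℕ} (hA : Cyl A N) (hB : Cyl B N) :
    Cyl (A ∪ B) N :=
  ⟨fun x y hxy hx => hx.elim (fun h => Or.inl (hA.1 x y hxy h)) fun h => Or.inr (hB.1 x y hxy h),
    hA.2.union hB.2⟩

theorem cyl_univ {σ : Type} (N : ℕ) : Cyl (Set.univ : Set (Ac K σ)) N :=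
  ⟨fun _ _ _ _ => Set.mem_univ _, Constr.univ⟩

theorem cyl_empty {σ : Type} (N : ℕ) : Cyl (∅ : Set (Ac K σ)) N :=
  ⟨fun _ _ _ h => h, Constr.empty⟩

end

/-- (V1) the cylinders are a Boolean algebra, and the volume is additive -/
theorem t_V1 : S_V0 → S_V1 := by
  intro V0 K _ R _ M v hv σ _
  have hadd : ∀ A B : Set (Ac K σ), IsCyl A → IsCyl B → Disjoint A B →
      vol M v (A ∪ B) = vol M v A + vol M v B := by
    intro A B hA hB hd
    obtain ⟨N, hA, hB⟩ := common hA hB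
    rw [V0 M v hv A N hA, V0 M v hv B N hB, V0 M v hv _ N (cyl_union hA hB), ← add_mul,
      ← M.add _ _ hA.2 hB.2 ?_]
    · rfl
    · rw [Set.disjoint_left] at hd ⊢
      exact fun z hz hz' => hd hz hz'
  refine ⟨?_, ?_, hadd, ?_, ?_⟩
  · rintro A ⟨N, hA⟩
    exact ⟨N, cyl_compl hA⟩
  · intro A B hA hB
    obtain ⟨N, hA, hB⟩ := common hA hB
    exact ⟨⟨N, cyl_inter hA hB⟩, ⟨N, cyl_union hA hB⟩⟩
  · rw [V0 M v hv _ 0 (cyl_univ 0)]
    have h1 : {z : Pt K (σ × Fin (0 + 1)) | ar z ∈ (Set.univ : Set (Ac K σ))} = Set.univ :=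
      Set.eq_univ_of_forall fun _ => Set.mem_univ _
    rw [h1, chi_univ, Fintype.card_prod, Fintype.card_fin, ← mul_pow, hv, one_pow]
  · have h1 := hadd ∅ ∅ ⟨0, cyl_empty 0⟩ ⟨0, cyl_empty 0⟩ (Set.disjoint_empty _)
    rw [Set.union_empty] at h1
    exact left_eq_add.1 h1

end Pool.Agent.J4H73.YJ
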