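import Pool.Agent.J4H73.YJ.Cc
import Pool.Agent.J4H73.YJ.V1

set_option autoImplicit false

/-! # Elimination of a coefficient -/

namespace Pool.Agent.J4H73.YJ

open MvPolynomial
open Pool.Agent.W428.MOT
open Pool.Agent.TH192.MT (ar coeff_ar coeff_ar_zero chi_univ)
open Pool.Agent.J4H50.YJ

section

variable {K : Type} [Field K] {σ : Type} [DecidableEq σ]

/-- a constant is added to one of the coordinates -/
noncomputable def ad {N : ℕ} (p : σ × Fin (N + 1)) (c : AlgebraicClosure K) (z : Pt K (σ × Fin (N + 1))) :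
    Pt K (σ × Fin (N + 1)) := fun q => if q = p then z q + c else z q

theorem ar_ad {N : ℕ} (i₀ : σ) (j : ℕ) (hj : j < N + 1) (c : AlgebraicClosure K)
    (z : Pt K (σ × Fin (N + 1))) : ar (ad (i₀, ⟨j, hj⟩) c z) =
      Function.update (ar z) i₀ (ar z i₀ + PowerSeries.monomial j c) := by
  funext i
  ext l
  rw [coeff_ar]
  by_cases hi : i = i₀
  · subst hi
    rw [Function.update_self, map_add, coeff_ar, PowerSeries.coeff_monomial]
    by_cases hl : l < N + 1
    · rw [dif_pos hl, dif_pos hl, ad]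
      by_cases h : l = j
      · subst h
        rw [if_pos rfl, if_pos rfl]
      · rw [if_neg h, if_neg, add_zero]
        intro h1
        exact h (congrArg (fun q : σ × Fin (N + 1) => (q.2 : ℕ)) h1)
    · rw [dif_neg hl, dif_neg hl, if_neg (by omega), add_zero]
  · rw [Function.update_of_ne hi, coeff_ar]
    by_cases hl : l < N + 1
    · rw [dif_pos hl, dif_pos hl, ad, if_neg]
      intro h1
      exact hi (congrArg Prod.fst h1)
    · rw [dif_neg hl, dif_neg hl]

theorem ad_ad {N : ℕ} (p : σ × Fin (N + 1)) (c d : AlgebraicClosure K)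
    (z : Pt K (σ × Fin (N + 1))) (h : d + c = 0) : ad p c (ad p d z) = z := by
  funext q
  unfold ad
  split_ifs
  · rw [add_assoc, h, add_zero]
  · rfl

end

/-- (LIN) Elimination of a coefficient. -/
theorem t_LIN : S_V0 → S_V1 → S_CC → S_LIN := by
  intro V0 _ _ K _ R _ M v hv σ _ _ A hA i₀ j m f q hj hq hc
  obtain ⟨N₀, hA⟩ := hA
  obtain ⟨N, hN1, hN2, hN3⟩ : ∃ N, N₀ ≤ N ∧ m ≤ N ∧ j ≤ N :=
    ⟨N₀ + m + j, by omega, by omega, by omega⟩
  have hA1 : Cyl A N := cyl_mono hA hN1
  have hB : Cyl (A ∩ {x | PowerSeries.coeff m (ev x f) = 0}) N :=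
    cyl_inter hA1 (cyl_mono (cyl_ev f m) hN2)
  rw [V0 M v hv _ N hB, V0 M v hv _ N hA1]
  have hj' : j < N + 1 := by omega
  -- the value of the coefficient, divided by the leading coefficient
  set g : Pt K (σ × Fin (N + 1)) → AlgebraicClosure K := fun z =>
    PowerSeries.coeff m (ev (ar z) f) / aeval (fun i => PowerSeries.coeff 0 (ar z i)) q with hg
  have hgr : IsRF {z : Pt K (σ × Fin (N + 1)) | ar z ∈ A} g := by
    refine ((ev_poly (fun z : Pt K (σ × Fin (N + 1)) => ar z) (fun i => pa_ar i) f m).isRF _).div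
      (((IsPF.poly q).comp (fun z : Pt K (σ × Fin (N + 1)) => fun i =>
        PowerSeries.coeff 0 (ar z i)) fun i => pa_ar i 0).isRF _) ?_
    intro z hz
    exact hq _ hz
  have hz0 : ∀ (z : Pt K (σ × Fin (N + 1))) (c : AlgebraicClosure K),
      (fun i => PowerSeries.coeff 0 (ar (ad (i₀, ⟨j, hj'⟩) c z) i)) =
        fun i => PowerSeries.coeff 0 (ar z i) := by
    intro z c
    funext i
    rw [coeff_ar_zero, coeff_ar_zero, ad, if_neg]
    intro h1
    have h2 : (0 : ℕ) = j := congrArg (fun q : σ × Fin (N + 1) => (q.2 : ℕ)) h1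
    omega
  have key : M.χ (σ × Fin (N + 1)) {z | ar z ∈ A} =
      M.χ (σ × Fin (N + 1)) {z | ar z ∈ A ∩ {x | PowerSeries.coeff m (ev x f) = 0}} * M.L := by
    rw [Meas.L, ← M.prod _ _ hB.2 Constr.univ]
    refine M.iso _ _ hA1.2 (Constr.and (hB.2.preimage
      (fun z : Pt K (σ × Fin (N + 1) ⊕ Fin 1) => fun i => z (Sum.inl i))
        fun i => IsPF.coord _) (Constr.const True))
      (fun z => Sum.elim (ad (i₀, ⟨j, hj'⟩) (-g z) z) (fun _ => g z))
      (fun w => ad (i₀, ⟨j, hj'⟩) (w (Sum.inr 0)) (fun i => w (Sum.inl i))) ?_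
      (regularOn_poly ?_ _) ?_ ?_ ?_ ?_
    · rw [regularOn_iff]
      rintro (p | p)
      · simp only [Sum.elim_inl, ad]
        split_ifs
        · exact ((IsPF.coord p).isRF _).add
            ((((IsPF.zero (K := K)).isRF _).sub hgr).congr fun z _ => (zero_sub _).symm)
        · exact (IsPF.coord p).isRF _
      · exact hgr
    · intro p
      simp only [ad]
      split_ifs
      · exact (IsPF.coord _).add (IsPF.coord _)
      · exact IsPF.coord _
    · intro z hz
      have hz1 : ar z ∈ A := hz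
      refine ⟨?_, trivial⟩
      change ar (ad (i₀, ⟨j, hj'⟩) (-g z) z) ∈ A ∩ {x | PowerSeries.coeff m (ev x f) = 0}
      rw [ar_ad]
      obtain ⟨h1, h2⟩ := hc _ hz1 (-g z)
      refine ⟨h1, ?_⟩
      change PowerSeries.coeff m (ev _ f) = 0
      rw [h2, neg_mul, hg]
      simp only
      rw [div_mul_cancel₀ _ (hq _ hz1), add_neg_cancel]
    · intro w hw
      have hw1 : ar (fun i => w (Sum.inl i)) ∈ A ∩ {x | PowerSeries.coeff m (ev x f) = 0} := hw.1
      change ar (ad (i₀, ⟨j, hj'⟩) (w (Sum.inr 0)) (fun i => w (Sum.inl i))) ∈ A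
      rw [ar_ad]
      exact (hc _ hw1.1 _).1
    · intro z _
      exact ad_ad _ _ _ _ (neg_add_cancel _)
    · intro w hw
      have hw1 : ar (fun i => w (Sum.inl i)) ∈ A ∩ {x | PowerSeries.coeff m (ev x f) = 0} := hw.1
      have h1 : g (ad (i₀, ⟨j, hj'⟩) (w (Sum.inr 0)) (fun i => w (Sum.inl i))) = w (Sum.inr 0) := by
        rw [hg]
        simp only
        rw [hz0, ar_ad, (hc _ hw1.1 _).2, show PowerSeries.coeff m
          (ev (ar fun i => w (Sum.inl i)) f) = 0 from hw1.2, zero_add,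
          mul_div_cancel_right₀ _ (hq _ hw1.1)]
      funext p
      rcases p with p | p
      · rw [Sum.elim_inl, h1, ad_ad _ _ _ _ (add_neg_cancel _)]
      · rw [Sum.elim_inr, h1, Subsingleton.elim p 0]
  rw [key]
  linear_combination (-(M.χ (σ × Fin (N + 1)) {z | ar z ∈ A ∩
    {x | PowerSeries.coeff m (ev x f) = 0}} * v ^ (Fintype.card σ * (N + 1)))) * hv

end Pool.Agent.J4H73.YJ
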