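import Pool.Agent.J4H73.YJ.Pr

set_option autoImplicit false

/-! # Other names of the coordinates of the arcs -/

namespace Pool.Agent.J4H73.YJ

open MvPolynomial
open Pool.Agent.W428.MOT
open Pool.Agent.TH192.MT (ar coeff_ar)
open Pool.Agent.J4H50.YJ

/-- (RE) other names of the coordinates -/
theorem t_RE : S_V0 → S_RE := by
  intro V0 K _ R _ M v hv σ τ _ _ e A hA
  obtain ⟨N, hA⟩ := hA
  have hC := cyl_names e hA
  refine ⟨⟨N, hC⟩, ?_⟩
  rw [V0 M v hv A N hA, V0 M v hv _ N hC, Fintype.card_congr e]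
  congr 1
  exact chi_names M (e.prodCongr (Equiv.refl (Fin (N + 1)))) _ hA.2

end Pool.Agent.J4H73.YJ
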