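import Pool.Agent.J4H73.YJ.Cc

set_option autoImplicit false

/-! # Multiplication of the coordinates by powers of `t` -/

namespace Pool.Agent.J4H73.YJ

open MvPolynomial
open Pool.Agent.W428.MOT
open Pool.Agent.TH192.MT (ar coeff_ar coeff_ar_zero chi_univ)
open Pool.Agent.J4H50.YJ

section

variable {K : Type} [Field K] {σ : Type}

/-- the arcs `(t ^ (m i) y_i)_i`, `y ∈ A` -/
def sc (m : σ → ℕ) (A : Set (Ac K σ)) : Set (Ac K σ) :=
  {x : Ac K σ | ∃ y ∈ A, ∀ i, x i = PowerSeries.X ^ m i * y i}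

/-- division by the powers of `t` -/
noncomputable def sh (m : σ → ℕ) (x : Ac K σ) : Ac K σ :=
  fun i => PowerSeries.mk fun j => PowerSeries.coeff (j + m i) (x i)

theorem mem_sc (m : σ → ℕ) (A : Set (Ac K σ)) (x : Ac K σ) : x ∈ sc m A ↔
    (∀ i, ∀ j < m i, PowerSeries.coeff j (x i) = 0) ∧ sh m x ∈ A := by
  constructor
  · rintro ⟨y, hy, h⟩
    constructor
    · intro i j hj
      rw [h i, PowerSeries.coeff_X_pow_mul', if_neg (by omega)]
    · have h1 : sh m x = y := by
        funext i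
        ext j
        rw [sh, PowerSeries.coeff_mk, h i, PowerSeries.coeff_X_pow_mul]
      rw [h1]
      exact hy
  · rintro ⟨h1, h2⟩
    refine ⟨_, h2, fun i => ?_⟩
    ext j
    rw [PowerSeries.coeff_X_pow_mul']
    split_ifs with h3
    · rw [sh, PowerSeries.coeff_mk, Nat.sub_add_cancel h3]
    · exact h1 i j (by omega)

theorem cyl_sc (m : σ → ℕ) [Finite σ] {A : Set (Ac K σ)} {N N' : ℕ} (hA : Cyl A N)
    (hm : ∀ i, N + m i ≤ N') (hN : ∀ i, m i ≤ N') : Cyl (sc m A) N' := by
  have h1 : ∀ x y : Ac K σ, (∀ i, ∀ j ≤ N', PowerSeries.coeff j (x i) = PowerSeries.coeff j (y i)) →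
      ∀ i, ∀ j ≤ N, PowerSeries.coeff j (sh m x i) = PowerSeries.coeff j (sh m y i) := by
    intro x y hxy i j hj
    rw [sh, sh, PowerSeries.coeff_mk, PowerSeries.coeff_mk]
    have := hm i
    exact hxy i _ (by omega)
  constructor
  · intro x y hxy hx
    rw [mem_sc] at hx ⊢
    refine ⟨fun i j hj => ?_, hA.1 _ _ (h1 x y hxy) hx.2⟩
    have := hN i
    rw [← hxy i j (by omega)]
    exact hx.1 i j hj
  · have h2 : {z : Pt K (σ × Fin (N' + 1)) | ar z ∈ sc m A} =
        {z | ∀ i, ∀ j < m i, PowerSeries.coeff j (ar z i) = 0} ∩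
          {z | (fun q : σ × Fin (N + 1) => PowerSeries.coeff (q.2 + m q.1) (ar z q.1)) ∈
            {w : Pt K (σ × Fin (N + 1)) | ar w ∈ A}} := by
      ext z
      change ar z ∈ sc m A ↔ (∀ i, ∀ j < m i, PowerSeries.coeff j (ar z i) = 0) ∧
        ar (fun q : σ × Fin (N + 1) => PowerSeries.coeff (q.2 + m q.1) (ar z q.1)) ∈ A
      rw [mem_sc]
      have h3 : ∀ i, ∀ j ≤ N, PowerSeries.coeff j (sh m (ar z) i) = PowerSeries.coeff j
          (ar (fun q : σ × Fin (N + 1) => PowerSeries.coeff (q.2 + m q.1) (ar z q.1)) i) := by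
        intro i j hj
        rw [sh, PowerSeries.coeff_mk, coeff_ar _ i j, dif_pos (by omega)]
      exact and_congr Iff.rfl ⟨fun h => hA.1 _ _ h3 h,
        fun h => hA.1 _ _ (fun i j hj => (h3 i j hj).symm) h⟩
    rw [h2]
    refine Constr.inter ?_ ?_
    · exact Constr.all fun i => Constr.allLt _ fun j _ => Constr.eqz (pa_ar i j)
    · exact hA.2.preimage (fun z : Pt K (σ × Fin (N' + 1)) => fun q : σ × Fin (N + 1) =>
        PowerSeries.coeff (q.2 + m q.1) (ar z q.1)) fun q => pa_ar q.1 _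

end

section

variable {K : Type} [Field K] {R : Type} [CommRing R] {σ : Type} [Fintype σ]

theorem chi_sc (M : Meas K R) (m : σ → ℕ) {A : Set (Ac K σ)} {N N' : ℕ} (hA : Cyl A N)
    (hm : ∀ i, N + m i ≤ N') (hNN : N ≤ N') :
    M.χ (σ × Fin (N' + 1)) {z | ar z ∈ A} =
      M.χ (σ × Fin (N' + 1)) {z | ar z ∈ sc m A} * M.L ^ (∑ i, m i) := by
  have hN : ∀ i, m i ≤ N' := fun i => (Nat.le_add_left _ _).trans (hm i)
  have hD := cyl_sc m hA hm hN
  have hE : Fintype.card (Σ i, Fin (m i)) = ∑ i, m i := by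
    rw [Fintype.card_sigma]
    simp only [Fintype.card_fin]
  rw [← hE, ← chi_univ, ← M.prod _ _ hD.2 Constr.univ]
  have hA' : Cyl A N' := cyl_mono hA hNN
  refine M.iso _ _ hA'.2 (Constr.and (hD.2.preimage
      (fun z : Pt K (σ × Fin (N' + 1) ⊕ Σ i, Fin (m i)) => fun i => z (Sum.inl i))
        fun i => IsPF.coord _) (Constr.const True))
    (fun w => Sum.elim (fun q => if h : m q.1 ≤ q.2.1 then w (q.1, ⟨q.2.1 - m q.1, by omega⟩) else 0)
      (fun q => w (q.1, ⟨N' + 1 - m q.1 + q.2.1, by have := hN q.1; omega⟩)))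
    (fun z q => if h : q.2.1 + m q.1 < N' + 1 then z (Sum.inl (q.1, ⟨q.2.1 + m q.1, h⟩)) else
      z (Sum.inr ⟨q.1, ⟨q.2.1 + m q.1 - (N' + 1), by omega⟩⟩))
    (regularOn_poly ?_ _) (regularOn_poly ?_ _) ?_ ?_ ?_ ?_
  · rintro (q | q)
    · simp only [Sum.elim_inl]
      split_ifs
      · exact IsPF.coord _
      · exact IsPF.zero
    · exact IsPF.coord _
  · intro q
    split_ifs
    · exact IsPF.coord _
    · exact IsPF.coord _
  · intro w hw
    refine ⟨?_, trivial⟩
    change ar (fun q : σ × Fin (N' + 1) => if h : m q.1 ≤ q.2.1 then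
      w (q.1, ⟨q.2.1 - m q.1, by omega⟩) else 0) ∈ sc m A
    refine hD.1 (fun i => PowerSeries.X ^ m i * ar w i) _ ?_ ⟨ar w, hw, fun _ => rfl⟩
    intro i j hj
    rw [PowerSeries.coeff_X_pow_mul', coeff_ar (fun q : σ × Fin (N' + 1) => if h : m q.1 ≤ q.2.1 then
      w (q.1, ⟨q.2.1 - m q.1, by omega⟩) else 0), dif_pos (by omega)]
    split_ifs with h
    · rw [coeff_ar, dif_pos (by omega)]
    · rfl
  · intro z hz
    have hz1 : ar (fun i => z (Sum.inl i)) ∈ sc m A := hz.1
    rw [mem_sc] at hz1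
    refine hA.1 _ _ ?_ hz1.2
    intro i j hj
    have := hm i
    rw [sh, PowerSeries.coeff_mk, coeff_ar, coeff_ar, dif_pos (by omega), dif_pos (by omega)]
    beta_reduce
    split_ifs with h
    · rfl
    · exact absurd (show j + m i < N' + 1 by omega) h
  · intro w _
    funext q
    obtain ⟨i, j, hj⟩ := q
    simp only [Sum.elim_inl, Sum.elim_inr]
    split_ifs with h1 h2
    · congr 2
      ext
      simp
    · omega
    · congr 2
      ext
      have := hN i
      simp only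
      omega
  · intro z hz
    have hz1 : ar (fun i => z (Sum.inl i)) ∈ sc m A := hz.1
    rw [mem_sc] at hz1
    funext q
    rcases q with ⟨i, j, hj⟩ | ⟨i, j, hj⟩
    · simp only [Sum.elim_inl]
      split_ifs with h1 h2
      · congr 3
        ext
        simp only
        omega
      · omega
      · have h3 := hz1.1 i j (by omega)
        rw [coeff_ar, dif_pos hj] at h3
        exact h3.symm
    · have := hN i
      simp only [Sum.elim_inr]
      rw [dif_neg (by omega)]
      congr 3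
      ext
      simp only
      omega

end

/-- (SC) multiplication of the coordinates by powers of `t` -/
theorem t_SC : S_V0 → S_SC := by
  intro V0 K _ R _ M v hv σ _ m A hA
  obtain ⟨N, hA⟩ := hA
  have hm : ∀ i, N + m i ≤ N + ∑ i, m i := fun i => Nat.add_le_add_left
    (Finset.single_le_sum (f := m) (fun _ _ => Nat.zero_le _) (Finset.mem_univ i)) N
  have hN : ∀ i, m i ≤ N + ∑ i, m i := fun i => (Nat.le_add_left _ _).trans (hm i)
  have hD := cyl_sc m hA hm hN
  refine ⟨⟨_, hD⟩, ?_⟩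
  change vol M v (sc m A) = _
  rw [V0 M v hv _ _ hD, V0 M v hv _ _ (cyl_mono hA (Nat.le_add_right N (∑ i, m i))),
    chi_sc M m hA hm (Nat.le_add_right _ _)]
  have h3 : M.L ^ (∑ i, m i) * v ^ (∑ i, m i) = 1 := by
    rw [← mul_pow, hv, one_pow]
  linear_combination (-(M.χ (σ × Fin (N + ∑ i, m i + 1)) {z | ar z ∈ sc m A} *
    v ^ (Fintype.card σ * (N + ∑ i, m i + 1)))) * h3

end Pool.Agent.J4H73.YJ
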