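import Pool.Agent.J4H73.YJ.V0
import Pool.Agent.J4H73.YJ.Re
import Pool.Agent.J4H73.YJ.Sc
import Pool.Agent.J4H73.YJ.Lin
import Pool.Agent.J4H43.YJ.Iso

set_option autoImplicit false

/-! # The basic facts on the volumes of cylinders -/

namespace Pool.Agent.J4H73.YJ

open Pool.Agent.J4H50.YJ

/-- the basic facts (ISO: helper43) -/
theorem bas : Bas where
  v0 := t_V0
  v1 := t_V1 t_V0
  cc := t_CC t_V0 (t_V1 t_V0)
  pr := t_PR t_V0
  re := t_RE t_V0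
  sc := t_SC t_V0
  lin := t_LIN t_V0 (t_V1 t_V0) (t_CC t_V0 (t_V1 t_V0))
  iso := Pool.Agent.J4H43.YJ.t_ISO t_V0

end Pool.Agent.J4H73.YJ
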