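import Pool.Agent.J4H73.YJ.Pr

set_option autoImplicit false

/-! # Conditions on the coefficients of `f(t, x(t))` define cylinders -/

namespace Pool.Agent.J4H73.YJ

open MvPolynomial
open Pool.Agent.W428.MOT
open Pool.Agent.TH192.MT (ar coeff_ar coeff_ar_zero)
open Pool.Agent.J4H50.YJ

section

variable {K : Type} [Field K]

/-- the coefficients up to `N` of `f(t, x(t))` only depend on the ones of `x` -/
theorem ev_congr {σ : Type} (f : MvPolynomial (Option σ) K) (N : ℕ) (x y : Ac K σ)
    (hxy : ∀ i, ∀ j ≤ N, PowerSeries.coeff j (x i) = PowerSeries.coeff j (y i)) :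
    ∀ j ≤ N, PowerSeries.coeff j (ev x f) = PowerSeries.coeff j (ev y f) := by
  induction f using MvPolynomial.induction_on with
  | C a =>
    intro j _
    simp only [ev, algHom_C]
  | add p q hp hq =>
    intro j hj
    simp only [ev, map_add] at hp hq ⊢
    rw [hp j hj, hq j hj]
  | mul_X p i hp =>
    intro j hj
    simp only [ev, map_mul, aeval_X, PowerSeries.coeff_mul] at hp ⊢
    refine Finset.sum_congr rfl fun ab hab => ?_
    have := Finset.HasAntidiagonal.mem_antidiagonal.1 hab
    rw [hp ab.1 (by omega)]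
    rcases i with _ | i
    · rfl
    · change _ * PowerSeries.coeff ab.2 (x i) = _ * PowerSeries.coeff ab.2 (y i)
      rw [hxy i ab.2 (by omega)]

/-- the coefficients of `f(t, x(t))` are polynomials -/
theorem ev_poly {σ ι : Type} (γ : Pt K ι → Ac K σ) (hγ : ∀ i, IsPA fun z => γ z i)
    (f : MvPolynomial (Option σ) K) : IsPA fun z => ev (γ z) f := by
  induction f using MvPolynomial.induction_on with
  | C a =>
    simp only [ev, algHom_C, PowerSeries.algebraMap_apply]
    exact IsPA.C (IsPF.const a)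
  | add p q hp hq =>
    simp only [ev, map_add] at hp hq ⊢
    exact hp.add hq
  | mul_X p i hp =>
    simp only [ev, map_mul, aeval_X] at hp ⊢
    refine hp.mul ?_
    rcases i with _ | i
    · exact IsPA.X
    · exact hγ i

theorem pa_ar {σ : Type} {N : ℕ} (i : σ) :
    IsPA (fun z : Pt K (σ × Fin (N + 1)) => ar z i) := by
  intro j
  simp only [coeff_ar]
  split_ifs with h
  · exact IsPF.coord _
  · exact IsPF.zero

theorem cyl_ev {σ : Type} (f : MvPolynomial (Option σ) K) (m : ℕ) :
    Cyl {x : Ac K σ | PowerSeries.coeff m (ev x f) = 0} m := by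
  refine ⟨fun x y hxy hx => ?_, ?_⟩
  · change PowerSeries.coeff m (ev y f) = 0
    rw [← ev_congr f m x y hxy m le_rfl]
    exact hx
  · exact Constr.eqz (ev_poly (fun z : Pt K (σ × Fin (m + 1)) => ar z) (fun i => pa_ar i) f m)

theorem cyl_zero {σ : Type} {S : Set (Pt K σ)} (hS : Constr S) :
    Cyl {x : Ac K σ | (fun i => PowerSeries.coeff 0 (x i)) ∈ S} 0 := by
  refine ⟨fun x y hxy hx => ?_, ?_⟩
  · have h1 : (fun i => PowerSeries.coeff 0 (x i)) = fun i => PowerSeries.coeff 0 (y i) :=
      funext fun i => hxy i 0 le_rfl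
    change (fun i => PowerSeries.coeff 0 (y i)) ∈ S
    rw [← h1]
    exact hx
  · exact hS.preimage (fun z : Pt K (σ × Fin (0 + 1)) => fun i => PowerSeries.coeff 0 (ar z i))
      fun i => pa_ar i 0

end

/-- (CC) conditions on the coefficients of `f(t, x(t))` define cylinders -/
theorem t_CC : S_V0 → S_V1 → S_CC := by
  intro V0 _ K _ σ _
  refine ⟨fun f m => ⟨m, cyl_ev f m⟩, fun S hS => ⟨⟨0, cyl_zero hS⟩, ?_⟩⟩
  intro R _ M v hv
  rw [V0 M v hv _ 0 (cyl_zero hS), show Fintype.card σ * (0 + 1) = Fintype.card σ from mul_one _]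
  congr 1
  have h1 := chi_names M (Equiv.prodUnique σ (Fin 1)).symm S hS
  rw [← h1]
  congr 1
  ext z
  change (fun i => PowerSeries.coeff 0 (ar z i)) ∈ S ↔ _
  have h2 : (fun i => PowerSeries.coeff 0 (ar z i)) =
      fun i => z ((Equiv.prodUnique σ (Fin 1)).symm i) := by
    funext i
    rw [coeff_ar_zero]
    rfl
  rw [h2]
  rfl

end Pool.Agent.J4H73.YJ
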