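import Pool.Agent.J4H50.YJ.Stm

set_option autoImplicit false

/-! # Products of cylinders, and other names of the coordinates -/

namespace Pool.Agent.J4H73.YJ

open MvPolynomial
open Pool.Agent.W428.MOT
open Pool.Agent.TH192.MT (ar coeff_ar)
open Pool.Agent.J4H50.YJ

section

variable {K : Type} [Field K]

/-- a cylinder of level `N` is one of every larger level -/
theorem cyl_mono {σ : Type} {A : Set (Ac K σ)} {N N' : ℕ} (h : Cyl A N) (hN : N ≤ N') :
    Cyl A N' := by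
  refine ⟨fun x y hxy hx => h.1 x y (fun i j hj => hxy i j (hj.trans hN)) hx, ?_⟩
  have h1 := h.2.preimage (fun z : Pt K (σ × Fin (N' + 1)) =>
    fun q : σ × Fin (N + 1) => z (q.1, Fin.castLE (Nat.succ_le_succ hN) q.2))
    fun q => IsPF.coord _
  have h2 : {z : Pt K (σ × Fin (N' + 1)) | ar z ∈ A} = {z | (fun q : σ × Fin (N + 1) =>
      z (q.1, Fin.castLE (Nat.succ_le_succ hN) q.2)) ∈ {z : Pt K (σ × Fin (N + 1)) | ar z ∈ A}} := by
    ext z
    have h3 : ∀ i, ∀ j ≤ N, PowerSeries.coeff j (ar z i) = PowerSeries.coeff j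
        (ar (fun q : σ × Fin (N + 1) => z (q.1, Fin.castLE (Nat.succ_le_succ hN) q.2)) i) := by
      intro i j hj
      rw [coeff_ar, coeff_ar, dif_pos (by omega), dif_pos (by omega)]
      rfl
    exact ⟨fun hz => h.1 _ _ h3 hz, fun hz => h.1 _ _ (fun i j hj => (h3 i j hj).symm) hz⟩
  rw [h2]
  exact h1

/-- two cylinders have a common level -/
theorem common {σ τ : Type} {A : Set (Ac K σ)} {B : Set (Ac K τ)} (hA : IsCyl A) (hB : IsCyl B) :
    ∃ N, Cyl A N ∧ Cyl B N := by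
  obtain ⟨a, ha⟩ := hA
  obtain ⟨b, hb⟩ := hB
  exact ⟨max a b, cyl_mono ha (le_max_left _ _), cyl_mono hb (le_max_right _ _)⟩

variable {R : Type} [CommRing R]

/-- other names of the coordinates -/
theorem chi_names (M : Meas K R) {ι κ : Type} [Fintype ι] [Fintype κ] (e : ι ≃ κ)
    (S : Set (Pt K ι)) (hS : Constr S) : M.χ κ {z | (fun i => z (e i)) ∈ S} = M.χ ι S := by
  refine M.iso _ _ (hS.preimage (fun z : Pt K κ => fun i => z (e i)) fun i => IsPF.coord _) hS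
    (fun z i => z (e i)) (fun w k => w (e.symm k))
    (regularOn_poly (fun i => IsPF.coord _) _) (regularOn_poly (fun i => IsPF.coord _) _) ?_ ?_ ?_ ?_
  · intro z hz
    exact hz
  · intro w hw
    have h1 : (fun i => w (e.symm (e i))) = w := by
      funext i
      rw [e.symm_apply_apply]
    change (fun i => w (e.symm (e i))) ∈ S
    rw [h1]
    exact hw
  · intro z _
    funext k
    exact congrArg z (e.apply_symm_apply k)
  · intro w _
    funext i
    exact congrArg w (e.symm_apply_apply i)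

/-- the product of two cylinders of the level `N` -/
theorem cyl_prod {σ τ : Type} {A : Set (Ac K σ)} {B : Set (Ac K τ)} {N : ℕ} (hA : Cyl A N)
    (hB : Cyl B N) :
    Cyl {x : Ac K (σ ⊕ τ) | (fun i => x (Sum.inl i)) ∈ A ∧ (fun i => x (Sum.inr i)) ∈ B} N := by
  refine ⟨fun x y hxy hx => ⟨hA.1 _ _ (fun i j hj => hxy _ j hj) hx.1,
    hB.1 _ _ (fun i j hj => hxy _ j hj) hx.2⟩, ?_⟩
  exact Constr.and
    (hA.2.preimage (fun z : Pt K ((σ ⊕ τ) × Fin (N + 1)) =>
      fun q : σ × Fin (N + 1) => z (Sum.inl q.1, q.2)) fun q => IsPF.coord _)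
    (hB.2.preimage (fun z : Pt K ((σ ⊕ τ) × Fin (N + 1)) =>
      fun q : τ × Fin (N + 1) => z (Sum.inr q.1, q.2)) fun q => IsPF.coord _)

/-- other names of the coordinates of the arcs -/
theorem cyl_names {σ τ : Type} (e : σ ≃ τ) {A : Set (Ac K σ)} {N : ℕ} (hA : Cyl A N) :
    Cyl {x : Ac K τ | (fun i => x (e i)) ∈ A} N := by
  refine ⟨fun x y hxy hx => hA.1 _ _ (fun i j hj => hxy _ j hj) hx, ?_⟩
  exact hA.2.preimage (fun z : Pt K (τ × Fin (N + 1)) =>
    fun q : σ × Fin (N + 1) => z (e q.1, q.2)) fun q => IsPF.coord _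

end

/-- (PR) products -/
theorem t_PR : S_V0 → S_PR := by
  intro V0 K _ R _ M v hv σ τ _ _ A B hA hB
  obtain ⟨N, hA, hB⟩ := common hA hB
  have hC := cyl_prod hA hB
  refine ⟨⟨N, hC⟩, ?_⟩
  rw [V0 M v hv A N hA, V0 M v hv B N hB, V0 M v hv _ N hC]
  have hS : Constr {w : Pt K (σ × Fin (N + 1) ⊕ τ × Fin (N + 1)) |
      (fun i => w (Sum.inl i)) ∈ {z : Pt K (σ × Fin (N + 1)) | ar z ∈ A} ∧
      (fun i => w (Sum.inr i)) ∈ {z : Pt K (τ × Fin (N + 1)) | ar z ∈ B}} := Constr.and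
    (hA.2.preimage (fun w : Pt K (σ × Fin (N + 1) ⊕ τ × Fin (N + 1)) => fun i => w (Sum.inl i))
      fun q => IsPF.coord _)
    (hB.2.preimage (fun w : Pt K (σ × Fin (N + 1) ⊕ τ × Fin (N + 1)) => fun i => w (Sum.inr i))
      fun q => IsPF.coord _)
  have h1 : M.χ ((σ ⊕ τ) × Fin (N + 1)) {z | ar z ∈
      {x : Ac K (σ ⊕ τ) | (fun i => x (Sum.inl i)) ∈ A ∧ (fun i => x (Sum.inr i)) ∈ B}} =
      M.χ (σ × Fin (N + 1)) {z | ar z ∈ A} * M.χ (τ × Fin (N + 1)) {z | ar z ∈ B} := by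
    rw [← M.prod _ _ hA.2 hB.2]
    exact chi_names M (Equiv.sumProdDistrib σ τ (Fin (N + 1))).symm _ hS
  rw [h1, Fintype.card_sum, add_mul, pow_add]
  ring

end Pool.Agent.J4H73.YJ
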