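import Pool.Agent.J4H73.YJ.Pr

set_option autoImplicit false

/-! # The volume of a cylinder can be computed on every level -/

namespace Pool.Agent.J4H73.YJ

open MvPolynomial
open Pool.Agent.W428.MOT
open Pool.Agent.TH192.MT (ar coeff_ar chi_split)
open Pool.Agent.J4H50.YJ

section

variable {K : Type} [Field K] {R : Type} [CommRing R]

/-- one more coefficient of every coordinate -/
theorem chi_succ (M : Meas K R) {σ : Type} [Fintype σ] {A : Set (Ac K σ)} {N : ℕ}
    (hA : Cyl A N) :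
    M.χ (σ × Fin (N + 1 + 1)) {z | ar z ∈ A} =
      M.χ (σ × Fin (N + 1)) {z | ar z ∈ A} * M.L ^ Fintype.card σ := by
  have h1 := chi_split M ((Equiv.prodSumDistrib σ (Fin (N + 1)) (Fin 1)).symm.trans
    ((Equiv.refl σ).prodCongr finSumFinEquiv)) {z | ar z ∈ A} {z | ar z ∈ A} hA.2 ?_
  · rw [h1, Fintype.card_prod, Fintype.card_fin, mul_one]
  · intro z
    have h3 : ∀ i, ∀ j ≤ N, PowerSeries.coeff j (ar z i) = PowerSeries.coeff j
        (ar (fun q : σ × Fin (N + 1) => z (((Equiv.prodSumDistrib σ (Fin (N + 1)) (Fin 1)).symm.trans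
          ((Equiv.refl σ).prodCongr finSumFinEquiv)) (Sum.inl q))) i) := by
      intro i j hj
      rw [coeff_ar, coeff_ar, dif_pos (by omega), dif_pos (by omega)]
      rfl
    exact ⟨fun hz => hA.1 _ _ h3 hz, fun hz => hA.1 _ _ (fun i j hj => (h3 i j hj).symm) hz⟩

/-- the normalised class on the level `N` -/
theorem level (M : Meas K R) (v : R) (hv : M.L * v = 1) {σ : Type} [Fintype σ]
    {A : Set (Ac K σ)} {N : ℕ} (hA : Cyl A N) (k : ℕ) :
    M.χ (σ × Fin (N + k + 1)) {z | ar z ∈ A} * v ^ (Fintype.card σ * (N + k + 1)) =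
      M.χ (σ × Fin (N + 1)) {z | ar z ∈ A} * v ^ (Fintype.card σ * (N + 1)) := by
  induction k with
  | zero => rfl
  | succ k ih =>
    rw [← ih]
    have h1 := chi_succ M (cyl_mono hA (Nat.le_add_right N k))
    change M.χ (σ × Fin (N + k + 1 + 1)) {z | ar z ∈ A} *
      v ^ (Fintype.card σ * (N + k + 1 + 1)) = _
    rw [h1, mul_add (Fintype.card σ) (N + k + 1) 1, pow_add, mul_one]
    have h3 : M.L ^ Fintype.card σ * v ^ Fintype.card σ = 1 := by
      rw [← mul_pow, hv, one_pow]
    linear_combination (M.χ (σ × Fin (N + k + 1)) {z | ar z ∈ A} *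
      v ^ (Fintype.card σ * (N + k + 1))) * h3

/-- all the levels give the same -/
theorem level_eq (M : Meas K R) (v : R) (hv : M.L * v = 1) {σ : Type} [Fintype σ]
    {A : Set (Ac K σ)} {N N' : ℕ} (hA : Cyl A N) (hA' : Cyl A N') :
    M.χ (σ × Fin (N + 1)) {z | ar z ∈ A} * v ^ (Fintype.card σ * (N + 1)) =
      M.χ (σ × Fin (N' + 1)) {z | ar z ∈ A} * v ^ (Fintype.card σ * (N' + 1)) := by
  rcases le_total N N' with h | h
  · obtain ⟨k, rfl⟩ := Nat.exists_eq_add_of_le h
    exact (level M v hv hA k).symm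
  · obtain ⟨k, rfl⟩ := Nat.exists_eq_add_of_le h
    exact level M v hv hA' k

end

/-- (V0) the volume can be computed on every level -/
theorem t_V0 : S_V0 := by
  intro K _ R _ M v hv σ _ A N hA
  have h : IsCyl A := ⟨N, hA⟩
  rw [vol, dif_pos h]
  exact level_eq M v hv h.choose_spec hA

end Pool.Agent.J4H73.YJ
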